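import Mathlib

/-!
# Proportional 0-1 sequences of arbitrarily large length (MP_0132f6, Q1: yes)

For every `k ≥ 6` there is a proportional sequence of length `128 k^2`.
-/

set_option autoImplicit false

open Finset

namespace Pool.Agent.Results.MP_0132f6_co.Proportional

/-- The 3-term progressions `(a, a + d, a + 2 d)` in `{1, …, n}`, encoded by the pairs `(a, d)`. -/
def progressions (n : ℕ) : Finset (ℕ × ℕ) :=
  (Icc 1 n ×ˢ Icc 1 n).filter fun p => p.1 + 2 * p.2 ≤ n

/-- The number of progressions in `{1, …, n}` whose type is the word `t`. -/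
def typeCount (n : ℕ) (x : ℕ → Fin 2) (t : Fin 2 × Fin 2 × Fin 2) : ℕ :=
  ((progressions n).filter fun p => (x p.1, x (p.1 + p.2), x (p.1 + 2 * p.2)) = t).card

/-- The sequence `x 1, …, x n` is proportional: each of the eight types is the type of exactly
one eighth of all progressions. -/
def IsProportional (n : ℕ) (x : ℕ → Fin 2) : Prop :=
  ∀ t : Fin 2 × Fin 2 × Fin 2, 8 * typeCount n x t = (progressions n).card

/-! ### Reorganising the sums -/

lemma mem_prog {n : ℕ} {p : ℕ × ℕ} :
    p ∈ progressions n ↔ 1 ≤ p.1 ∧ 1 ≤ p.2 ∧ p.1 + 2 * p.2 ≤ n := by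
  unfold progressions
  rw [mem_filter, mem_product, mem_Icc, mem_Icc]
  omega

/-- reflection -/
lemma sum_refl (n : ℕ) (f : ℕ × ℕ → ℤ) :
    ∑ p ∈ progressions n, f p = ∑ p ∈ progressions n, f (n + 1 - p.1 - 2 * p.2, p.2) := by
  apply Finset.sum_nbij' (fun p => (n + 1 - p.1 - 2 * p.2, p.2))
    (fun p => (n + 1 - p.1 - 2 * p.2, p.2))
  · intro p hp
    rw [mem_prog] at hp ⊢
    simp only
    omega
  · intro p hp
    rw [mem_prog] at hp ⊢
    simp only
    omega
  · intro p hp
    rw [mem_prog] at hp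
    ext
    · simp only; omega
    · rfl
  · intro p hp
    rw [mem_prog] at hp
    ext
    · simp only; omega
    · rfl
  · intro p hp
    rw [mem_prog] at hp
    congr 1
    ext
    · simp only; omega
    · rfl

lemma sum_first (n : ℕ) (f : ℕ × ℕ → ℤ) :
    ∑ p ∈ progressions n, f p = ∑ d ∈ Icc 1 n, ∑ a ∈ Icc 1 (n - 2 * d), f (a, d) := by
  unfold progressions
  rw [sum_filter, sum_product_right]
  apply Finset.sum_congr rfl
  intro d hd
  rw [mem_Icc] at hd
  rw [← sum_filter]
  apply Finset.sum_congr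
  · ext a
    simp only [mem_filter, mem_Icc]
    omega
  · intro a _; rfl

lemma sum_mid (n : ℕ) (f : ℕ → ℕ → ℤ) :
    ∑ p ∈ progressions n, f (p.1 + p.2) (p.1 + 2 * p.2)
      = ∑ b ∈ Icc 1 n, ∑ c ∈ Ioc b (min (2 * b - 1) n), f b c := by
  rw [Finset.sum_sigma']
  apply Finset.sum_nbij' (fun p => ⟨p.1 + p.2, p.1 + 2 * p.2⟩)
    (fun q => (2 * q.1 - q.2, q.2 - q.1))
  · intro p hp
    rw [mem_prog] at hp
    rw [mem_sigma, mem_Icc, mem_Ioc]
    simp only
    omega
  · intro q hq
    rw [mem_sigma, mem_Icc, mem_Ioc] at hq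
    rw [mem_prog]
    simp only
    omega
  · intro p hp
    rw [mem_prog] at hp
    ext
    · simp only; omega
    · simp only; omega
  · intro q hq
    rw [mem_sigma, mem_Icc, mem_Ioc] at hq
    obtain ⟨b, c⟩ := q
    simp only at hq ⊢
    have h1 : 2 * b - c + (c - b) = b := by omega
    have h2 : 2 * b - c + 2 * (c - b) = c := by omega
    rw [h1, h2]
  · intro p _; rfl

lemma sum_last (n : ℕ) (f : ℕ → ℕ → ℤ) :
    ∑ p ∈ progressions n, f p.1 (p.1 + 2 * p.2)
      = ∑ c ∈ Icc 1 n, ∑ d ∈ Icc 1 ((c - 1) / 2), f (c - 2 * d) c := by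
  rw [Finset.sum_sigma']
  apply Finset.sum_nbij' (fun p => ⟨p.1 + 2 * p.2, p.2⟩)
    (fun q => (q.1 - 2 * q.2, q.2))
  · intro p hp
    rw [mem_prog] at hp
    rw [mem_sigma, mem_Icc, mem_Icc]
    simp only
    omega
  · intro q hq
    rw [mem_sigma, mem_Icc, mem_Icc] at hq
    rw [mem_prog]
    simp only
    omega
  · intro p hp
    rw [mem_prog] at hp
    ext
    · simp only; omega
    · rfl
  · intro q hq
    rw [mem_sigma, mem_Icc, mem_Icc] at hq
    obtain ⟨b, c⟩ := q
    simp only at hq ⊢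
    have h1 : b - 2 * c + 2 * c = b := by omega
    rw [h1]
  · intro p hp
    rw [mem_prog] at hp
    simp only
    rw [show p.1 + 2 * p.2 - 2 * p.2 = p.1 by omega]

section
variable {m : ℕ} {z F : ℕ → ℤ}

/-- telescoping -/
lemma sum_Ioc_z (hz : ∀ i, z (i + 1) = F (i + 1) - F i) (p q : ℕ) (hpq : p ≤ q) :
    ∑ i ∈ Ioc p q, z i = F q - F p := by
  induction q, hpq using Nat.le_induction with
  | base => simp
  | succ q hq ih =>
    rw [← Finset.insert_Ioc_right_eq_Ioc_add_one (by omega), sum_insert (by simp), ih, hz]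
    ring

lemma sum_Icc_z (hz : ∀ i, z (i + 1) = F (i + 1) - F i) (hF0 : F 0 = 0) (q : ℕ) :
    ∑ i ∈ Icc 1 q, z i = F q := by
  have := sum_Ioc_z hz 0 q (by omega)
  rw [hF0, sub_zero] at this
  rw [← this]
  rfl

/-- `∑ z_b F_b` -/
lemma sum_zF (hz : ∀ i, z (i + 1) = F (i + 1) - F i) (hF0 : F 0 = 0) (q : ℕ)
    (hsq : ∀ i, i < q → z (i + 1) * z (i + 1) = 1) :
    2 * ∑ i ∈ Icc 1 q, z i * F i = F q ^ 2 + q := by
  induction q with
  | zero => simp [hF0]
  | succ q ih =>
    rw [← Finset.insert_Icc_right_eq_Icc_add_one (by omega), sum_insert (by simp), mul_add,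
      ih (fun i hi => hsq i (by omega))]
    have h1 := hsq q (by omega)
    have h2 := hz q
    push_cast
    have h3 : F q = F (q + 1) - z (q + 1) := by linarith
    rw [h3]
    linear_combination h1

end

section
variable {m : ℕ} {z F : ℕ → ℤ}

lemma s1_eq (hz : ∀ i, z (i + 1) = F (i + 1) - F i) (hF0 : F 0 = 0) :
    ∑ p ∈ progressions (2 * m), z p.1 = ∑ t ∈ range m, F (2 * t) := by
  rw [sum_first]
  have e1 : ∀ d ∈ Icc 1 (2 * m), ∑ a ∈ Icc 1 (2 * m - 2 * d), z a = F (2 * m - 2 * d) :=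
    fun d _ => sum_Icc_z hz hF0 _
  rw [Finset.sum_congr rfl e1]
  have e2 : ∑ d ∈ Icc 1 (2 * m), F (2 * m - 2 * d) = ∑ d ∈ Icc 1 m, F (2 * m - 2 * d) := by
    symm
    apply Finset.sum_subset
    · intro d hd
      rw [mem_Icc] at hd ⊢
      omega
    · intro d hd hd'
      rw [mem_Icc] at hd hd'
      have : 2 * m - 2 * d = 0 := by omega
      rw [this, hF0]
  rw [e2]
  apply Finset.sum_nbij' (fun d => m - d) (fun t => m - t)
  · intro d hd; rw [mem_Icc] at hd; rw [mem_range]; omega
  · intro d hd; rw [mem_range] at hd; rw [mem_Icc]; omega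
  · intro d hd; rw [mem_Icc] at hd; omega
  · intro d hd; rw [mem_range] at hd; omega
  · intro d hd; rw [mem_Icc] at hd; congr 1; omega

lemma p23_eq (hz : ∀ i, z (i + 1) = F (i + 1) - F i) (hF0 : F 0 = 0) (hFn : F (2 * m) = 0)
    (hsq : ∀ i, i < 2 * m → z (i + 1) * z (i + 1) = 1) :
    ∑ p ∈ progressions (2 * m), z (p.1 + p.2) * z (p.1 + 2 * p.2)
      = ∑ t ∈ range m, (F (t + 1) - F t) * F (2 * t + 1) - m := by
  rw [sum_mid (2 * m) (fun b c => z b * z c)]
  have e1 : ∀ b ∈ Icc 1 (2 * m), ∑ c ∈ Ioc b (min (2 * b - 1) (2 * m)), z b * z c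
      = z b * F (min (2 * b - 1) (2 * m)) - z b * F b := by
    intro b hb
    rw [mem_Icc] at hb
    rw [← mul_sum, sum_Ioc_z hz _ _ (by omega)]
    ring
  rw [Finset.sum_congr rfl e1, sum_sub_distrib]
  have h2 := sum_zF hz hF0 (2 * m) hsq
  rw [hFn] at h2
  push_cast at h2
  have e2 : ∑ b ∈ Icc 1 (2 * m), z b * F (min (2 * b - 1) (2 * m))
      = ∑ b ∈ Icc 1 m, z b * F (min (2 * b - 1) (2 * m)) := by
    symm
    apply Finset.sum_subset
    · intro d hd
      rw [mem_Icc] at hd ⊢
      omega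
    · intro d hd hd'
      rw [mem_Icc] at hd hd'
      have : min (2 * d - 1) (2 * m) = 2 * m := by omega
      rw [this, hFn, mul_zero]
  have e3 : ∑ b ∈ Icc 1 m, z b * F (min (2 * b - 1) (2 * m))
      = ∑ t ∈ range m, (F (t + 1) - F t) * F (2 * t + 1) := by
    apply Finset.sum_nbij' (fun b => b - 1) (fun t => t + 1)
    · intro d hd; rw [mem_Icc] at hd; rw [mem_range]; omega
    · intro d hd; rw [mem_range] at hd; rw [mem_Icc]; omega
    · intro d hd; rw [mem_Icc] at hd; omega
    · intro d hd; rw [mem_range] at hd; omega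
    · intro b hb
      rw [mem_Icc] at hb
      obtain ⟨t, rfl⟩ : ∃ t, b = t + 1 := ⟨b - 1, by omega⟩
      rw [hz, show min (2 * (t + 1) - 1) (2 * m) = 2 * t + 1 by omega]
      simp only [Nat.add_sub_cancel]
  rw [e2, e3]
  linarith

/-- partial sums in the residue class of `c` -/
def Gs (z : ℕ → ℤ) (c : ℕ) : ℤ := ∑ d ∈ Icc 1 ((c - 1) / 2), z (c - 2 * d)

lemma Gs_succ (z : ℕ → ℤ) (c : ℕ) (hc : 1 ≤ c) : Gs z (c + 2) = Gs z c + z c := by
  unfold Gs
  have e : (c + 2 - 1) / 2 = (c - 1) / 2 + 1 := by omega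
  rw [e]
  have e2 : Icc 1 ((c - 1) / 2 + 1) = insert 1 (Icc 2 ((c - 1) / 2 + 1)) := by
    ext d; simp only [mem_insert, mem_Icc]; omega
  rw [e2, sum_insert (by simp), add_comm, show c + 2 - 2 * 1 = c by omega]
  congr 1
  symm
  apply Finset.sum_nbij' (fun d => d + 1) (fun t => t - 1)
  · intro d hd; rw [mem_Icc] at hd ⊢; omega
  · intro d hd; rw [mem_Icc] at hd ⊢; omega
  · intro d hd; omega
  · intro d hd; rw [mem_Icc] at hd; omega
  · intro d hd; rw [mem_Icc] at hd; congr 1; omega

lemma Gs_odd (z : ℕ → ℤ) (M : ℕ) : Gs z (2 * M + 1) = ∑ t ∈ range M, z (2 * t + 1) := by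
  induction M with
  | zero => simp [Gs]
  | succ M ih =>
    rw [show 2 * (M + 1) + 1 = (2 * M + 1) + 2 by ring, Gs_succ _ _ (by omega), ih,
      sum_range_succ]

lemma Gs_even (z : ℕ → ℤ) (M : ℕ) : Gs z (2 * M + 2) = ∑ t ∈ range M, z (2 * t + 2) := by
  induction M with
  | zero => simp [Gs]
  | succ M ih =>
    rw [show 2 * (M + 1) + 2 = (2 * M + 2) + 2 by ring, Gs_succ _ _ (by omega), ih,
      sum_range_succ]

lemma sum_zG (z : ℕ → ℤ) (M : ℕ) (hsq : ∀ i, i < 2 * M → z (i + 1) * z (i + 1) = 1) :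
    2 * ∑ c ∈ Icc 1 (2 * M), z c * Gs z c = Gs z (2 * M + 1) ^ 2 + Gs z (2 * M + 2) ^ 2 - 2 * M := by
  induction M with
  | zero => simp [Gs]
  | succ M ih =>
    rw [show 2 * (M + 1) = 2 * M + 1 + 1 by ring,
      ← Finset.insert_Icc_right_eq_Icc_add_one (by omega), sum_insert (by simp),
      ← Finset.insert_Icc_right_eq_Icc_add_one (by omega), sum_insert (by simp), mul_add, mul_add,
      ih (fun i hi => hsq i (by omega))]
    have h1 := hsq (2 * M) (by omega)
    have h2 := hsq (2 * M + 1) (by omega)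
    rw [show 2 * M + 1 + 1 + 1 = (2 * M + 1) + 2 by ring,
      show 2 * M + 1 + 1 + 2 = (2 * M + 2) + 2 by ring, Gs_succ z (2 * M + 1) (by omega),
      Gs_succ z (2 * M + 2) (by omega)]
    rw [show 2 * M + 1 + 1 = 2 * M + 2 by ring] at h2 ⊢
    push_cast
    linear_combination -h1 - h2

lemma p13_eq (hz : ∀ i, z (i + 1) = F (i + 1) - F i)
    (hsq : ∀ i, i < 2 * m → z (i + 1) * z (i + 1) = 1) :
    2 * ∑ p ∈ progressions (2 * m), z p.1 * z (p.1 + 2 * p.2)
      = (∑ t ∈ range m, F (2 * t + 1) - ∑ t ∈ range m, F (2 * t)) ^ 2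
        + (∑ t ∈ range m, F (2 * t + 2) - ∑ t ∈ range m, F (2 * t + 1)) ^ 2 - 2 * m := by
  rw [sum_last (2 * m) (fun a c => z a * z c)]
  have e1 : ∀ c ∈ Icc 1 (2 * m), ∑ d ∈ Icc 1 ((c - 1) / 2), z (c - 2 * d) * z c
      = z c * Gs z c := by
    intro c _
    rw [Gs, mul_sum]
    apply Finset.sum_congr rfl
    intro d _; ring
  have e2 : ∑ t ∈ range m, z (2 * t + 1) = ∑ t ∈ range m, (F (2 * t + 1) - F (2 * t)) :=
    Finset.sum_congr rfl (fun t _ => hz _)
  have e3 : ∑ t ∈ range m, z (2 * t + 2) = ∑ t ∈ range m, (F (2 * t + 2) - F (2 * t + 1)) :=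
    Finset.sum_congr rfl (fun t _ => hz _)
  rw [Finset.sum_congr rfl e1, sum_zG z m hsq, Gs_odd, Gs_even, ← sum_sub_distrib,
    ← sum_sub_distrib, e2, e3]

end

/-- sign of a letter -/
def sg (u : Fin 2) : ℤ := if u = 0 then 1 else -1

lemma ind_eq (u v w a b c : Fin 2) :
    (8 * (if (u, v, w) = (a, b, c) then 1 else 0) : ℤ)
      = (1 + sg a * sg u) * (1 + sg b * sg v) * (1 + sg c * sg w) := by
  revert u v w a b c
  decide

/-- The criterion. -/
theorem criterion (m e : ℕ) (x : ℕ → Fin 2) (F : ℕ → ℤ) (he : m = e * e)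
    (hz : ∀ i, i < 2 * m → sg (x (i + 1)) = F (i + 1) - F i)
    (hF0 : F 0 = 0) (hsym : ∀ i, i ≤ 2 * m → F (2 * m - i) = F i)
    (h1 : ∑ t ∈ range m, F (2 * t) = 0)
    (h2 : ∑ t ∈ range m, F (2 * t + 1) = e)
    (h3 : ∑ t ∈ range m, (F (t + 1) - F t) * F (2 * t + 1) = m) :
    IsProportional (2 * m) x := by
  have hFn : F (2 * m) = 0 := by
    have := hsym 0 (by omega)
    rw [Nat.sub_zero] at this
    rw [this, hF0]
  -- the extended difference sequence
  set z : ℕ → ℤ := fun i => F i - F (i - 1) with hzdef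
  have hz' : ∀ i, z (i + 1) = F (i + 1) - F i := by
    intro i; simp [hzdef]
  have hzx : ∀ i, 1 ≤ i → i ≤ 2 * m → sg (x i) = z i := by
    intro i hi1 hi2
    obtain ⟨j, rfl⟩ : ∃ j, i = j + 1 := ⟨i - 1, by omega⟩
    rw [hz j (by omega), hz']
  have hsg : ∀ u : Fin 2, sg u * sg u = 1 := by decide
  have hsq : ∀ i, i < 2 * m → z (i + 1) * z (i + 1) = 1 := by
    intro i hi
    rw [← hzx (i + 1) (by omega) (by omega)]
    exact hsg _
  have hanti : ∀ i, 1 ≤ i → i ≤ 2 * m → z (2 * m + 1 - i) = - z i := by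
    intro i hi1 hi2
    obtain ⟨j, rfl⟩ : ∃ j, i = j + 1 := ⟨i - 1, by omega⟩
    have a1 := hsym (j + 1) (by omega)
    have a2 := hsym j (by omega)
    rw [show 2 * m + 1 - (j + 1) = (2 * m - (j + 1)) + 1 by omega, hz', hz',
      show 2 * m - (j + 1) + 1 = 2 * m - j by omega, a1, a2]
    ring
  -- the seven sums
  have S1 : ∑ p ∈ progressions (2 * m), z p.1 = 0 := by
    rw [s1_eq hz' hF0, h1]
  have S3 : ∑ p ∈ progressions (2 * m), z (p.1 + 2 * p.2) = 0 := by
    have e : ∑ p ∈ progressions (2 * m), z (p.1 + 2 * p.2)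
        = ∑ p ∈ progressions (2 * m), - z p.1 := by
      rw [sum_refl]
      apply Finset.sum_congr rfl
      intro p hp
      rw [mem_prog] at hp
      simp only
      rw [show 2 * m + 1 - p.1 - 2 * p.2 + 2 * p.2 = 2 * m + 1 - p.1 by omega]
      exact hanti _ (by omega) (by omega)
    rw [e, sum_neg_distrib, S1, neg_zero]
  have S2 : ∑ p ∈ progressions (2 * m), z (p.1 + p.2) = 0 := by
    have e : ∑ p ∈ progressions (2 * m), z (p.1 + p.2)
        = ∑ p ∈ progressions (2 * m), - z (p.1 + p.2) := by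
      conv_lhs => rw [sum_refl]
      apply Finset.sum_congr rfl
      intro p hp
      rw [mem_prog] at hp
      simp only
      rw [show 2 * m + 1 - p.1 - 2 * p.2 + p.2 = 2 * m + 1 - (p.1 + p.2) by omega]
      exact hanti _ (by omega) (by omega)
    rw [sum_neg_distrib] at e
    linarith
  have P23 : ∑ p ∈ progressions (2 * m), z (p.1 + p.2) * z (p.1 + 2 * p.2) = 0 := by
    rw [p23_eq hz' hF0 hFn hsq, h3, sub_self]
  have P12 : ∑ p ∈ progressions (2 * m), z p.1 * z (p.1 + p.2) = 0 := by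
    rw [sum_refl, ← P23]
    apply Finset.sum_congr rfl
    intro p hp
    rw [mem_prog] at hp
    simp only
    rw [show 2 * m + 1 - p.1 - 2 * p.2 + p.2 = 2 * m + 1 - (p.1 + p.2) by omega,
      show 2 * m + 1 - p.1 - 2 * p.2 = 2 * m + 1 - (p.1 + 2 * p.2) by omega,
      hanti _ (by omega) (by omega), hanti _ (by omega) (by omega)]
    ring
  have P13 : ∑ p ∈ progressions (2 * m), z p.1 * z (p.1 + 2 * p.2) = 0 := by
    have h := p13_eq hz' hsq
    have h4 : ∑ t ∈ range m, F (2 * t + 2) = 0 := by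
      have a1 := Finset.sum_range_succ (fun t => F (2 * t)) m
      have a2 := Finset.sum_range_succ' (fun t => F (2 * t)) m
      simp only [mul_zero] at a2
      rw [a1, h1, hFn, hF0] at a2
      have a3 : ∑ t ∈ range m, F (2 * (t + 1)) = ∑ t ∈ range m, F (2 * t + 2) :=
        Finset.sum_congr rfl (fun t _ => by rw [show 2 * (t + 1) = 2 * t + 2 by ring])
      rw [a3] at a2
      linarith
    rw [h1, h2, h4, he] at h
    push_cast at h
    rw [he]
    nlinarith
  have T : ∑ p ∈ progressions (2 * m), z p.1 * z (p.1 + p.2) * z (p.1 + 2 * p.2) = 0 := by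
    have e : ∑ p ∈ progressions (2 * m), z p.1 * z (p.1 + p.2) * z (p.1 + 2 * p.2)
        = ∑ p ∈ progressions (2 * m), - (z p.1 * z (p.1 + p.2) * z (p.1 + 2 * p.2)) := by
      conv_lhs => rw [sum_refl]
      apply Finset.sum_congr rfl
      intro p hp
      rw [mem_prog] at hp
      simp only
      rw [show 2 * m + 1 - p.1 - 2 * p.2 + p.2 = 2 * m + 1 - (p.1 + p.2) by omega,
        show 2 * m + 1 - p.1 - 2 * p.2 + 2 * p.2 = 2 * m + 1 - p.1 by omega,
        show 2 * m + 1 - p.1 - 2 * p.2 = 2 * m + 1 - (p.1 + 2 * p.2) by omega,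
        hanti _ (by omega) (by omega), hanti _ (by omega) (by omega),
        hanti _ (by omega) (by omega)]
      ring
    rw [sum_neg_distrib] at e
    linarith
  intro t
  obtain ⟨α, β, γ⟩ := t
  have key : ((8 * typeCount (2 * m) x (α, β, γ) : ℕ) : ℤ)
      = ∑ p ∈ progressions (2 * m), (1 + sg α * z p.1) * (1 + sg β * z (p.1 + p.2))
          * (1 + sg γ * z (p.1 + 2 * p.2)) := by
    unfold typeCount
    push_cast
    rw [card_filter]
    push_cast
    rw [mul_sum]
    apply Finset.sum_congr rfl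
    intro p hp
    rw [mem_prog] at hp
    rw [← hzx p.1 (by omega) (by omega), ← hzx (p.1 + p.2) (by omega) (by omega),
      ← hzx (p.1 + 2 * p.2) (by omega) (by omega)]
    exact ind_eq _ _ _ _ _ _
  have expand : ∑ p ∈ progressions (2 * m), (1 + sg α * z p.1) * (1 + sg β * z (p.1 + p.2))
          * (1 + sg γ * z (p.1 + 2 * p.2))
      = ∑ p ∈ progressions (2 * m), (1 : ℤ) + sg α * ∑ p ∈ progressions (2 * m), z p.1
        + sg β * ∑ p ∈ progressions (2 * m), z (p.1 + p.2)
        + sg γ * ∑ p ∈ progressions (2 * m), z (p.1 + 2 * p.2)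
        + sg α * sg β * ∑ p ∈ progressions (2 * m), z p.1 * z (p.1 + p.2)
        + sg β * sg γ * ∑ p ∈ progressions (2 * m), z (p.1 + p.2) * z (p.1 + 2 * p.2)
        + sg α * sg γ * ∑ p ∈ progressions (2 * m), z p.1 * z (p.1 + 2 * p.2)
        + sg α * sg β * sg γ *
          ∑ p ∈ progressions (2 * m), z p.1 * z (p.1 + p.2) * z (p.1 + 2 * p.2) := by
    simp only [mul_sum]
    rw [← sum_add_distrib, ← sum_add_distrib, ← sum_add_distrib, ← sum_add_distrib,
      ← sum_add_distrib, ← sum_add_distrib, ← sum_add_distrib]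
    apply Finset.sum_congr rfl
    intro p _; ring
  rw [expand, S1, S2, S3, P12, P23, P13, T] at key
  simp only [mul_zero, add_zero, sum_const, nsmul_eq_mul, mul_one] at key
  exact_mod_cast key

/-! ### The explicit walk -/

/-- First half of the walk (`q` will be `k ^ 2`). -/
def H (k q x : ℕ) : ℤ :=
  if x ≤ 16 * k then ((x % 2 : ℕ) : ℤ)
  else if x ≤ 24 * k then (x : ℤ) - 16 * k
  else if x ≤ 48 * k then 8 * k + ((x % 2 : ℕ) : ℤ)
  else if x ≤ 64 * k then 56 * k - x
  else if x ≤ 88 * k then -8 * k + ((x % 2 : ℕ) : ℤ)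
  else if x ≤ 96 * k then (x : ℤ) - 96 * k
  else if x ≤ 32 * q + 20 * k then ((x % 2 : ℕ) : ℤ)
  else - ((x % 2 : ℕ) : ℤ)

/-- The walk, symmetric about `64 q`. -/
def Fw (k q x : ℕ) : ℤ := if x ≤ 64 * q then H k q x else H k q (128 * q - x)

section
variable {k q x : ℕ}

lemma H1 (h : x ≤ 16 * k) : H k q x = ((x % 2 : ℕ) : ℤ) := by
  rw [H, if_pos h]

lemma H2 (h : 16 * k ≤ x) (h' : x ≤ 24 * k) : H k q x = (x : ℤ) - 16 * k := by
  unfold H; split_ifs <;> omega

lemma H3 (h : 24 * k ≤ x) (h' : x ≤ 48 * k) : H k q x = 8 * k + ((x % 2 : ℕ) : ℤ) := by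
  unfold H; split_ifs <;> omega

lemma H4 (h : 48 * k ≤ x) (h' : x ≤ 64 * k) : H k q x = 56 * k - x := by
  unfold H; split_ifs <;> omega

lemma H5 (h : 64 * k ≤ x) (h' : x ≤ 88 * k) : H k q x = -8 * k + ((x % 2 : ℕ) : ℤ) := by
  unfold H; split_ifs <;> omega

lemma H6 (h : 88 * k ≤ x) (h' : x ≤ 96 * k) : H k q x = (x : ℤ) - 96 * k := by
  unfold H; split_ifs <;> omega

lemma H7 (h : 96 * k ≤ x) (h' : x ≤ 32 * q + 20 * k) : H k q x = ((x % 2 : ℕ) : ℤ) := by
  unfold H; split_ifs <;> omega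

lemma H8 (hq : 6 * k ≤ q) (h : 32 * q + 20 * k ≤ x) : H k q x = - ((x % 2 : ℕ) : ℤ) := by
  unfold H; split_ifs <;> omega

lemma Fw_left (h : x ≤ 64 * q) : Fw k q x = H k q x := by rw [Fw, if_pos h]

lemma Fw_right (h : 64 * q ≤ x) : Fw k q x = H k q (128 * q - x) := by
  unfold Fw
  split_ifs with h'
  · congr 1; omega
  · rfl

lemma Fw_sym (h : x ≤ 128 * q) : Fw k q (128 * q - x) = Fw k q x := by
  rcases Nat.lt_or_ge x (64 * q) with h1 | h1
  · rw [Fw_left h1.le, Fw_right (by omega)]
    congr 1; omega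
  · rw [Fw_right h1, Fw_left (by omega)]

/-- consecutive values differ by one -/
lemma H_step (hq : 6 * k ≤ q) : H k q (x + 1) - H k q x = 1 ∨ H k q (x + 1) - H k q x = -1 := by
  rcases Nat.lt_or_ge x (16 * k) with h | h
  · rw [H1 (by omega), H1 (by omega)]; omega
  rcases Nat.lt_or_ge x (24 * k) with h1 | h1
  · rw [H2 (by omega) (by omega), H2 (by omega) (by omega)]; omega
  rcases Nat.lt_or_ge x (48 * k) with h2 | h2
  · rw [H3 (by omega) (by omega), H3 (by omega) (by omega)]; omega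
  rcases Nat.lt_or_ge x (64 * k) with h3 | h3
  · rw [H4 (by omega) (by omega), H4 (by omega) (by omega)]; omega
  rcases Nat.lt_or_ge x (88 * k) with h4 | h4
  · rw [H5 (by omega) (by omega), H5 (by omega) (by omega)]; omega
  rcases Nat.lt_or_ge x (96 * k) with h5 | h5
  · rw [H6 (by omega) (by omega), H6 (by omega) (by omega)]; omega
  rcases Nat.lt_or_ge x (32 * q + 20 * k) with h6 | h6
  · rw [H7 (by omega) (by omega), H7 (by omega) (by omega)]; omega
  · rw [H8 hq (by omega), H8 hq (by omega)]; omega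

lemma Fw_step (hq : 6 * k ≤ q) (hx : x < 128 * q) :
    Fw k q (x + 1) - Fw k q x = 1 ∨ Fw k q (x + 1) - Fw k q x = -1 := by
  rcases Nat.lt_or_ge x (64 * q) with h | h
  · rw [Fw_left (by omega), Fw_left (by omega)]; exact H_step hq
  · rw [Fw_right (by omega), Fw_right (by omega)]
    have := H_step (k := k) (q := q) (x := 128 * q - (x + 1)) hq
    rw [show 128 * q - (x + 1) + 1 = 128 * q - x by omega] at this
    omega

/-- block property -/
lemma H_block (hq : 6 * k ≤ q) (u : ℕ) :
    2 * (H k q (4 * u + 3) - H k q (4 * u + 1)) = H k q (4 * u + 4) - H k q (4 * u) := by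
  rcases Nat.lt_or_ge u (4 * k) with h | h
  · rw [H1 (by omega), H1 (by omega), H1 (by omega), H1 (by omega)]; omega
  rcases Nat.lt_or_ge u (6 * k) with h1 | h1
  · rw [H2 (by omega) (by omega), H2 (by omega) (by omega), H2 (by omega) (by omega),
      H2 (by omega) (by omega)]; omega
  rcases Nat.lt_or_ge u (12 * k) with h2 | h2
  · rw [H3 (by omega) (by omega), H3 (by omega) (by omega), H3 (by omega) (by omega),
      H3 (by omega) (by omega)]; omega
  rcases Nat.lt_or_ge u (16 * k) with h3 | h3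
  · rw [H4 (by omega) (by omega), H4 (by omega) (by omega), H4 (by omega) (by omega),
      H4 (by omega) (by omega)]; omega
  rcases Nat.lt_or_ge u (22 * k) with h4 | h4
  · rw [H5 (by omega) (by omega), H5 (by omega) (by omega), H5 (by omega) (by omega),
      H5 (by omega) (by omega)]; omega
  rcases Nat.lt_or_ge u (24 * k) with h5 | h5
  · rw [H6 (by omega) (by omega), H6 (by omega) (by omega), H6 (by omega) (by omega),
      H6 (by omega) (by omega)]; omega
  rcases Nat.lt_or_ge u (8 * q + 5 * k) with h6 | h6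
  · rw [H7 (by omega) (by omega), H7 (by omega) (by omega), H7 (by omega) (by omega),
      H7 (by omega) (by omega)]; omega
  · rw [H8 hq (by omega), H8 hq (by omega), H8 hq (by omega), H8 hq (by omega)]; omega

lemma Fw_block (hq : 6 * k ≤ q) (u : ℕ) (hu : u < 32 * q) :
    2 * (Fw k q (4 * u + 1) - Fw k q (4 * u + 3)) = - (Fw k q (4 * (u + 1)) - Fw k q (4 * u)) := by
  rcases Nat.lt_or_ge u (16 * q) with h | h
  · rw [Fw_left (by omega), Fw_left (by omega), Fw_left (by omega), Fw_left (by omega)]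
    have := H_block (k := k) hq u
    rw [show 4 * (u + 1) = 4 * u + 4 by ring]
    linarith
  · rw [Fw_right (by omega), Fw_right (by omega), Fw_right (by omega), Fw_right (by omega)]
    have := H_block (k := k) hq (32 * q - 1 - u)
    rw [show 4 * (32 * q - 1 - u) + 3 = 128 * q - (4 * u + 1) by omega,
      show 4 * (32 * q - 1 - u) + 1 = 128 * q - (4 * u + 3) by omega,
      show 4 * (32 * q - 1 - u) + 4 = 128 * q - (4 * u) by omega,
      show 4 * (32 * q - 1 - u) = 128 * q - (4 * (u + 1)) by omega] at this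
    linarith

end

/-! ### Summation tools -/

lemma tele (g G : ℕ → ℤ) (a b : ℕ) (hab : a ≤ b)
    (h : ∀ t, a ≤ t → t < b → g t = G (t + 1) - G t) : ∑ t ∈ Ico a b, g t = G b - G a := by
  induction b, hab using Nat.le_induction with
  | base => simp
  | succ b hb ih =>
    rw [Finset.sum_Ico_succ_top hb, ih (fun t h1 h2 => h t h1 (by omega)), h b hb (by omega)]
    ring

lemma split8 (g : ℕ → ℤ) (a1 a2 a3 a4 a5 a6 a7 a8 : ℕ) (h1 : a1 ≤ a2) (h2 : a2 ≤ a3)
    (h3 : a3 ≤ a4) (h4 : a4 ≤ a5) (h5 : a5 ≤ a6) (h6 : a6 ≤ a7) (h7 : a7 ≤ a8) :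
    ∑ t ∈ range a8, g t = ∑ t ∈ Ico 0 a1, g t + ∑ t ∈ Ico a1 a2, g t + ∑ t ∈ Ico a2 a3, g t
      + ∑ t ∈ Ico a3 a4, g t + ∑ t ∈ Ico a4 a5, g t + ∑ t ∈ Ico a5 a6, g t
      + ∑ t ∈ Ico a6 a7, g t + ∑ t ∈ Ico a7 a8, g t := by
  rw [range_eq_Ico, sum_Ico_consecutive g (by omega) h1, sum_Ico_consecutive g (by omega) h2,
    sum_Ico_consecutive g (by omega) h3, sum_Ico_consecutive g (by omega) h4,
    sum_Ico_consecutive g (by omega) h5, sum_Ico_consecutive g (by omega) h6,
    sum_Ico_consecutive g (by omega) h7]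

section
variable (k q : ℕ)

lemma sumEven (hq : 6 * k ≤ q) : ∑ t ∈ range (32 * q), H k q (2 * t) = 0 := by
  rw [split8 (fun t => H k q (2 * t)) (8 * k) (12 * k) (24 * k) (32 * k) (44 * k) (48 * k)
    (16 * q + 10 * k) (32 * q) (by omega) (by omega) (by omega) (by omega) (by omega) (by omega)
    (by omega)]
  rw [tele _ (fun _ => 0) 0 (8 * k) (by omega) (fun t h1 h2 => by
      rw [H1 (by omega)]; omega),
    tele _ (fun t => (t : ℤ) ^ 2 - t - 16 * k * t) (8 * k) (12 * k) (by omega)
      (fun t h1 h2 => by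
        rw [H2 (by omega) (by omega)]; push_cast; ring),
    tele _ (fun t => 8 * k * t) (12 * k) (24 * k) (by omega)
      (fun t h1 h2 => by
        rw [H3 (by omega) (by omega), show 2 * t % 2 = 0 by omega]; push_cast; ring),
    tele _ (fun t => 56 * k * t - (t : ℤ) ^ 2 + t) (24 * k) (32 * k) (by omega)
      (fun t h1 h2 => by
        rw [H4 (by omega) (by omega)]; push_cast; ring),
    tele _ (fun t => -8 * k * t) (32 * k) (44 * k) (by omega)
      (fun t h1 h2 => by
        rw [H5 (by omega) (by omega), show 2 * t % 2 = 0 by omega]; push_cast; ring),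
    tele _ (fun t => (t : ℤ) ^ 2 - t - 96 * k * t) (44 * k) (48 * k) (by omega)
      (fun t h1 h2 => by
        rw [H6 (by omega) (by omega)]; push_cast; ring),
    tele _ (fun _ => 0) (48 * k) (16 * q + 10 * k) (by omega) (fun t h1 h2 => by
      rw [H7 (by omega) (by omega)]; omega),
    tele _ (fun _ => 0) (16 * q + 10 * k) (32 * q) (by omega) (fun t h1 h2 => by
      rw [H8 hq (by omega)]; omega)]
  push_cast
  ring

lemma sumOdd (hq : 6 * k ≤ q) : ∑ t ∈ range (32 * q), H k q (2 * t + 1) = 4 * k := by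
  rw [split8 (fun t => H k q (2 * t + 1)) (8 * k) (12 * k) (24 * k) (32 * k) (44 * k) (48 * k)
    (16 * q + 10 * k) (32 * q) (by omega) (by omega) (by omega) (by omega) (by omega) (by omega)
    (by omega)]
  rw [tele _ (fun t => (t : ℤ)) 0 (8 * k) (by omega) (fun t h1 h2 => by
      rw [H1 (by omega)]; omega),
    tele _ (fun t => (t : ℤ) ^ 2 - 16 * k * t) (8 * k) (12 * k) (by omega)
      (fun t h1 h2 => by
        rw [H2 (by omega) (by omega)]; push_cast; ring),
    tele _ (fun t => (8 * k + 1) * t) (12 * k) (24 * k) (by omega)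
      (fun t h1 h2 => by
        rw [H3 (by omega) (by omega), show (2 * t + 1) % 2 = 1 by omega]; push_cast; ring),
    tele _ (fun t => 56 * k * t - (t : ℤ) ^ 2) (24 * k) (32 * k) (by omega)
      (fun t h1 h2 => by
        rw [H4 (by omega) (by omega)]; push_cast; ring),
    tele _ (fun t => (-8 * k + 1) * t) (32 * k) (44 * k) (by omega)
      (fun t h1 h2 => by
        rw [H5 (by omega) (by omega), show (2 * t + 1) % 2 = 1 by omega]; push_cast; ring),
    tele _ (fun t => (t : ℤ) ^ 2 - 96 * k * t) (44 * k) (48 * k) (by omega)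
      (fun t h1 h2 => by
        rw [H6 (by omega) (by omega)]; push_cast; ring),
    tele _ (fun t => (t : ℤ)) (48 * k) (16 * q + 10 * k) (by omega) (fun t h1 h2 => by
      rw [H7 (by omega) (by omega)]; omega),
    tele _ (fun t => - (t : ℤ)) (16 * q + 10 * k) (32 * q) (by omega) (fun t h1 h2 => by
      rw [H8 hq (by omega)]; omega)]
  push_cast
  ring

/-- the correlation term of two consecutive steps -/
def cc (u : ℕ) : ℤ :=
  (Fw k q (2 * u + 1) - Fw k q (2 * u)) * Fw k q (4 * u + 1)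
    + (Fw k q (2 * u + 2) - Fw k q (2 * u + 1)) * Fw k q (4 * u + 3)

lemma sumC (hq : 6 * k ≤ q) : 2 * ∑ u ∈ range (32 * q), cc k q u = 128 * k * k := by
  rw [mul_sum]
  rw [split8 (fun u => 2 * cc k q u) (8 * k) (12 * k) (24 * k) (32 * k) (44 * k) (48 * k)
    (16 * q + 10 * k) (32 * q) (by omega) (by omega) (by omega) (by omega) (by omega) (by omega)
    (by omega)]
  rw [tele _ (fun u => - Fw k q (4 * u)) 0 (8 * k) (by omega) (fun u h1 h2 => by
      have hb := Fw_block (k := k) hq u (by omega)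
      simp only [cc]
      rw [Fw_left (x := 2 * u) (by omega), Fw_left (x := 2 * u + 1) (by omega),
        Fw_left (x := 2 * u + 2) (by omega), H1 (by omega), H1 (by omega), H1 (by omega),
        show 2 * u % 2 = 0 by omega, show (2 * u + 1) % 2 = 1 by omega,
        show (2 * u + 2) % 2 = 0 by omega]
      push_cast
      linarith),
    tele _ (fun u => 4 * (8 * k + 1) * u) (8 * k) (12 * k) (by omega) (fun u h1 h2 => by
      simp only [cc]
      rw [Fw_left (x := 2 * u) (by omega), Fw_left (x := 2 * u + 1) (by omega),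
        Fw_left (x := 2 * u + 2) (by omega), H2 (by omega) (by omega), H2 (by omega) (by omega),
        H2 (by omega) (by omega), Fw_left (by omega), Fw_left (by omega),
        H3 (by omega) (by omega), H3 (by omega) (by omega),
        show (4 * u + 1) % 2 = 1 by omega, show (4 * u + 3) % 2 = 1 by omega]
      push_cast
      ring),
    tele _ (fun u => - Fw k q (4 * u)) (12 * k) (24 * k) (by omega) (fun u h1 h2 => by
      have hb := Fw_block (k := k) hq u (by omega)
      simp only [cc]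
      rw [Fw_left (x := 2 * u) (by omega), Fw_left (x := 2 * u + 1) (by omega),
        Fw_left (x := 2 * u + 2) (by omega), H3 (by omega) (by omega), H3 (by omega) (by omega),
        H3 (by omega) (by omega),
        show 2 * u % 2 = 0 by omega, show (2 * u + 1) % 2 = 1 by omega,
        show (2 * u + 2) % 2 = 0 by omega]
      push_cast
      linarith),
    tele _ (fun u => -4 * (u : ℤ)) (24 * k) (32 * k) (by omega) (fun u h1 h2 => by
      simp only [cc]
      rw [Fw_left (x := 2 * u) (by omega), Fw_left (x := 2 * u + 1) (by omega),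
        Fw_left (x := 2 * u + 2) (by omega), H4 (by omega) (by omega), H4 (by omega) (by omega),
        H4 (by omega) (by omega), Fw_left (by omega), Fw_left (by omega),
        H7 (by omega) (by omega), H7 (by omega) (by omega),
        show (4 * u + 1) % 2 = 1 by omega, show (4 * u + 3) % 2 = 1 by omega]
      push_cast
      ring),
    tele _ (fun u => - Fw k q (4 * u)) (32 * k) (44 * k) (by omega) (fun u h1 h2 => by
      have hb := Fw_block (k := k) hq u (by omega)
      simp only [cc]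
      rw [Fw_left (x := 2 * u) (by omega), Fw_left (x := 2 * u + 1) (by omega),
        Fw_left (x := 2 * u + 2) (by omega), H5 (by omega) (by omega), H5 (by omega) (by omega),
        H5 (by omega) (by omega),
        show 2 * u % 2 = 0 by omega, show (2 * u + 1) % 2 = 1 by omega,
        show (2 * u + 2) % 2 = 0 by omega]
      push_cast
      linarith),
    tele _ (fun u => 4 * (u : ℤ)) (44 * k) (48 * k) (by omega) (fun u h1 h2 => by
      simp only [cc]
      rw [Fw_left (x := 2 * u) (by omega), Fw_left (x := 2 * u + 1) (by omega),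
        Fw_left (x := 2 * u + 2) (by omega), H6 (by omega) (by omega), H6 (by omega) (by omega),
        H6 (by omega) (by omega), Fw_left (by omega), Fw_left (by omega),
        H7 (by omega) (by omega), H7 (by omega) (by omega),
        show (4 * u + 1) % 2 = 1 by omega, show (4 * u + 3) % 2 = 1 by omega]
      push_cast
      ring),
    tele _ (fun u => - Fw k q (4 * u)) (48 * k) (16 * q + 10 * k) (by omega) (fun u h1 h2 => by
      have hb := Fw_block (k := k) hq u (by omega)
      simp only [cc]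
      rw [Fw_left (x := 2 * u) (by omega), Fw_left (x := 2 * u + 1) (by omega),
        Fw_left (x := 2 * u + 2) (by omega), H7 (by omega) (by omega), H7 (by omega) (by omega),
        H7 (by omega) (by omega),
        show 2 * u % 2 = 0 by omega, show (2 * u + 1) % 2 = 1 by omega,
        show (2 * u + 2) % 2 = 0 by omega]
      push_cast
      linarith),
    tele _ (fun u => Fw k q (4 * u)) (16 * q + 10 * k) (32 * q) (by omega) (fun u h1 h2 => by
      have hb := Fw_block (k := k) hq u (by omega)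
      simp only [cc]
      rw [Fw_left (x := 2 * u) (by omega), Fw_left (x := 2 * u + 1) (by omega),
        Fw_left (x := 2 * u + 2) (by omega), H8 hq (by omega), H8 hq (by omega),
        H8 hq (by omega),
        show 2 * u % 2 = 0 by omega, show (2 * u + 1) % 2 = 1 by omega,
        show (2 * u + 2) % 2 = 0 by omega]
      push_cast
      linarith)]
  have v0 : Fw k q (4 * 0) = 0 := by rw [Fw_left (by omega), H1 (by omega)]; rfl
  have v1 : Fw k q (4 * (8 * k)) = 8 * k := by
    rw [Fw_left (by omega), H3 (by omega) (by omega)]; omega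
  have v2 : Fw k q (4 * (24 * k)) = 0 := by
    rw [Fw_left (by omega), H7 (by omega) (by omega)]; omega
  have v3 : Fw k q (4 * (12 * k)) = 8 * k := by
    rw [Fw_left (by omega), H3 (by omega) (by omega)]; omega
  have v4 : Fw k q (4 * (44 * k)) = 0 := by
    rw [Fw_left (by omega), H7 (by omega) (by omega)]; omega
  have v5 : Fw k q (4 * (32 * k)) = 0 := by
    rw [Fw_left (by omega), H7 (by omega) (by omega)]; omega
  have v6 : Fw k q (4 * (48 * k)) = 0 := by
    rw [Fw_left (by omega), H7 (by omega) (by omega)]; omega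
  have v7 : Fw k q (4 * (16 * q + 10 * k)) = 0 := by
    rw [Fw_right (by omega)]
    rcases Nat.lt_or_ge (128 * q - 4 * (16 * q + 10 * k)) (32 * q + 20 * k) with h | h
    · rw [H7 (by omega) (by omega)]; omega
    · rw [H8 hq (by omega)]; omega
  have v8 : Fw k q (4 * (32 * q)) = 0 := by
    rw [Fw_right (by omega), H1 (by omega)]; omega
  rw [v0, v1, v2, v3, v4, v5, v6, v7, v8]
  push_cast
  ring

end

/-! ### Assembling -/

lemma Fw_zero (k q : ℕ) : Fw k q 0 = 0 := by rw [Fw_left (by omega), H1 (by omega)]; rfl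

lemma Fw_mid (k q : ℕ) (hq : 6 * k ≤ q) : Fw k q (64 * q) = 0 := by
  rw [Fw_left (by omega), H8 hq (by omega)]; omega

lemma cond1 (k q : ℕ) (hq : 6 * k ≤ q) : ∑ t ∈ range (64 * q), Fw k q (2 * t) = 0 := by
  rw [range_eq_Ico, ← sum_Ico_consecutive _ (show 0 ≤ 32 * q by omega)
    (show 32 * q ≤ 64 * q by omega), ← range_eq_Ico]
  have e1 : ∑ t ∈ range (32 * q), Fw k q (2 * t) = 0 := by
    rw [← sumEven k q hq]
    apply Finset.sum_congr rfl
    intro t ht
    rw [mem_range] at ht
    exact Fw_left (by omega)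
  have e2 : ∑ t ∈ Ico (32 * q) (64 * q), Fw k q (2 * t) = ∑ t ∈ range (32 * q), Fw k q (2 * (t + 1)) := by
    apply Finset.sum_nbij' (fun t => 64 * q - 1 - t) (fun t => 64 * q - 1 - t)
    · intro t ht; rw [mem_Ico] at ht; rw [mem_range]; omega
    · intro t ht; rw [mem_range] at ht; rw [mem_Ico]; omega
    · intro t ht; rw [mem_Ico] at ht; omega
    · intro t ht; rw [mem_range] at ht; omega
    · intro t ht
      rw [mem_Ico] at ht
      have := Fw_sym (k := k) (q := q) (x := 2 * t) (by omega)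
      rw [← this]
      congr 1; omega
  have a1 := Finset.sum_range_succ (fun t => Fw k q (2 * t)) (32 * q)
  have a2 := Finset.sum_range_succ' (fun t => Fw k q (2 * t)) (32 * q)
  have v : Fw k q (2 * (32 * q)) = 0 := by
    rw [show 2 * (32 * q) = 64 * q by ring]; exact Fw_mid k q hq
  rw [a1, e1, v, mul_zero, Fw_zero] at a2
  rw [e1, e2]
  linarith

lemma cond2 (k q : ℕ) (hq : 6 * k ≤ q) : ∑ t ∈ range (64 * q), Fw k q (2 * t + 1) = 8 * k := by
  rw [range_eq_Ico, ← sum_Ico_consecutive _ (show 0 ≤ 32 * q by omega)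
    (show 32 * q ≤ 64 * q by omega), ← range_eq_Ico]
  have e1 : ∑ t ∈ range (32 * q), Fw k q (2 * t + 1) = 4 * k := by
    rw [← sumOdd k q hq]
    apply Finset.sum_congr rfl
    intro t ht
    rw [mem_range] at ht
    exact Fw_left (by omega)
  have e2 : ∑ t ∈ Ico (32 * q) (64 * q), Fw k q (2 * t + 1) = ∑ t ∈ range (32 * q), Fw k q (2 * t + 1) := by
    apply Finset.sum_nbij' (fun t => 64 * q - 1 - t) (fun t => 64 * q - 1 - t)
    · intro t ht; rw [mem_Ico] at ht; rw [mem_range]; omega
    · intro t ht; rw [mem_range] at ht; rw [mem_Ico]; omega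
    · intro t ht; rw [mem_Ico] at ht; omega
    · intro t ht; rw [mem_range] at ht; omega
    · intro t ht
      rw [mem_Ico] at ht
      have := Fw_sym (k := k) (q := q) (x := 2 * t + 1) (by omega)
      rw [← this]
      congr 1; omega
  rw [e2, e1]
  ring

lemma sum_pairs (g : ℕ → ℤ) (M : ℕ) :
    ∑ t ∈ range (2 * M), g t = ∑ u ∈ range M, (g (2 * u) + g (2 * u + 1)) := by
  induction M with
  | zero => simp
  | succ M ih =>
    rw [show 2 * (M + 1) = 2 * M + 1 + 1 by ring, sum_range_succ, sum_range_succ, ih,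
      sum_range_succ]
    ring

lemma cond3 (k q : ℕ) (hq : 6 * k ≤ q) :
    ∑ t ∈ range (64 * q), (Fw k q (t + 1) - Fw k q t) * Fw k q (2 * t + 1) = 64 * k * k := by
  have h := sumC k q hq
  rw [show 64 * q = 2 * (32 * q) by ring, sum_pairs]
  have e : ∀ u ∈ range (32 * q),
      ((Fw k q (2 * u + 1) - Fw k q (2 * u)) * Fw k q (2 * (2 * u) + 1)
        + (Fw k q (2 * u + 1 + 1) - Fw k q (2 * u + 1)) * Fw k q (2 * (2 * u + 1) + 1))
      = cc k q u := by
    intro u _
    unfold cc
    rw [show 2 * (2 * u) + 1 = 4 * u + 1 by ring, show 2 * (2 * u + 1) + 1 = 4 * u + 3 by ring]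
  rw [Finset.sum_congr rfl e]
  linarith

/-- For every `k ≥ 6` there is a proportional sequence of length `128 k ^ 2`. -/
theorem exists_proportional (k : ℕ) (hk : 6 ≤ k) :
    ∃ x : ℕ → Fin 2, IsProportional (128 * (k * k)) x := by
  have hq : 6 * k ≤ k * k := Nat.mul_le_mul_right k hk
  refine ⟨fun i => if Fw k (k * k) i - Fw k (k * k) (i - 1) = 1 then 0 else 1, ?_⟩
  rw [show 128 * (k * k) = 2 * (64 * (k * k)) by ring]
  apply criterion (64 * (k * k)) (8 * k) _ (Fw k (k * k)) (by ring)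
  · intro i hi
    have h := Fw_step (k := k) (q := k * k) (x := i) hq (by omega)
    simp only [Nat.add_sub_cancel]
    rcases h with h | h
    · rw [if_pos h, h]; rfl
    · rw [if_neg (by rw [h]; norm_num), h]; rfl
  · exact Fw_zero _ _
  · intro i hi
    rw [show 2 * (64 * (k * k)) = 128 * (k * k) by ring] at hi ⊢
    exact Fw_sym hi
  · exact cond1 k (k * k) hq
  · rw [cond2 k (k * k) hq]; push_cast; ring
  · rw [cond3 k (k * k) hq]; push_cast; ring

/-- There are proportional sequences of arbitrarily large length: the set of lengths `n ≥ 3` of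
proportional 0-1 sequences is infinite. -/
theorem result : {n : ℕ | 3 ≤ n ∧ ∃ x : ℕ → Fin 2, IsProportional n x}.Infinite := by
  rw [Set.infinite_iff_exists_gt]
  intro b
  refine ⟨128 * ((b + 6) * (b + 6)), ⟨by nlinarith, exists_proportional (b + 6) (by omega)⟩, ?_⟩
  nlinarith

end Pool.Agent.Results.MP_0132f6_co.Proportional
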